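import Pool.Agent.Lib.MP_98dfd6_al.FerC

namespace Pool.Agent.Results.MP_98dfd6_al.FermatBarrier

open Pool.Agent.Lib.MP_98dfd6_al

/-- If, for solvable groups `G` with `O_2(G) = 1` whose classes of elements of odd order have
pairwise different sizes, `G / F(G)` always has a normal metabelian subgroup of index at most `B`,
then there are only finitely many Fermat primes. -/
theorem result (B : ℕ)
    (h : ∀ (G : Type) [Group G] [Finite G] (F : Subgroup G) [F.Normal], Group.IsSolvable G →
      (∀ N : Subgroup G, N.Normal → IsPGroup 2 N → N = ⊥) → ClLe 2 G 1 → Group.IsNilpotent F →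
      (∀ N : Subgroup G, N.Normal → Group.IsNilpotent N → N ≤ F) →
      ∃ M : Subgroup (G ⧸ F), M.Normal ∧ derivedSeries M 2 = ⊥ ∧ M.index ≤ B) :
    {k : ℕ | (2 ^ 2 ^ k + 1).Prime}.Finite :=
  Fer.fermat_finite B h

end Pool.Agent.Results.MP_98dfd6_al.FermatBarrier
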