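import Pool.Agent.Lib.MP_98dfd6_al.ClMain

namespace Pool.Agent.Results.MP_98dfd6_al.FewPrimes

open Pool.Agent.Lib.MP_98dfd6_al

/-- If `O_p(G) = 1` and every size of a `p`-regular class of `G` has multiplicity at most `m`, then
for every normal solvable subgroup `R` whose order has at most `k` prime divisors the image of `R`
in `G / F(G)` has a normal abelian subgroup of index bounded in terms of `p`, `m`, `k`, `|G : R|`. -/
theorem result (p : ℕ) (hp : p.Prime) : ∃ f : ℕ → ℕ → ℕ → ℕ,
    ∀ (G : Type) [Group G] [Finite G] (m k : ℕ) (R F : Subgroup G) [R.Normal] [F.Normal],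
      (∀ N : Subgroup G, N.Normal → IsPGroup p N → N = ⊥) → ClLe p G m → Group.IsSolvable R →
      (Nat.card R).primeFactors.card ≤ k →
      Group.IsNilpotent F → (∀ N : Subgroup G, N.Normal → Group.IsNilpotent N → N ≤ F) →
      ∃ M : Subgroup (R ⧸ F.subgroupOf R),
        M.Normal ∧ (∀ a ∈ M, ∀ b ∈ M, a * b = b * a) ∧ M.index ≤ f m k R.index :=
  cl_gen p hp

end Pool.Agent.Results.MP_98dfd6_al.FewPrimes
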