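import Pool.Agent.Lib.MP_98dfd6_al.AS.Top

namespace Pool.Agent.Results.MP_98dfd6_al.RadicalIndex

open Pool.Agent.Lib.MP_98dfd6_al

/-- If every `p`-Brauer degree of `G` has multiplicity at most `m`, and the almost simple sections
of `G` whose faithful degrees have multiplicity at most `m` have order at most `s`, then the index
of the solvable radical `R` of `G` is bounded in terms of `p`, `m` and `s`. -/
theorem result (p : ℕ) [Fact p.Prime] : ∃ f : ℕ → ℕ → ℕ,
    ∀ (k : Type) [Field k] [IsAlgClosed k] [CharP k p] (G : Type) [Group G] [Finite G] (m s : ℕ)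
      (R : Subgroup G) [R.Normal], BrLe k G m → SecLe k G m s → Group.IsSolvable R →
      (∀ N : Subgroup G, N.Normal → Group.IsSolvable N → N ≤ R) → R.index ≤ f m s := by
  choose D hD using fun m s => AS.index_rad p m s
  exact ⟨D, fun k _ _ _ G _ _ m s R _ => hD m s k G R⟩

end Pool.Agent.Results.MP_98dfd6_al.RadicalIndex
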