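import Pool.Agent.Lib.MP_98dfd6_al.Main

namespace Pool.Agent.Results.MP_98dfd6_al.SolvableRadical

open Pool.Agent.Lib.MP_98dfd6_al

/-- If `O_p(G) = 1` and every `p`-Brauer degree of `G` has multiplicity at most `m`, then for
every normal solvable subgroup `R` the image of `R` in `G / F(G)` has a normal metabelian subgroup
whose index is bounded in terms of `p`, `m` and `|G : R|`. -/
theorem result (p : ℕ) [Fact p.Prime] : ∃ f : ℕ → ℕ → ℕ,
    ∀ (k : Type) [Field k] [IsAlgClosed k] [CharP k p] (G : Type) [Group G] [Finite G] (m : ℕ)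
      (R F : Subgroup G) [R.Normal] [F.Normal],
      (∀ N : Subgroup G, N.Normal → IsPGroup p N → N = ⊥) → BrLe k G m → Group.IsSolvable R →
      Group.IsNilpotent F → (∀ N : Subgroup G, N.Normal → Group.IsNilpotent N → N ≤ F) →
      ∃ M : Subgroup (R ⧸ F.subgroupOf R),
        M.Normal ∧ derivedSeries M 2 = ⊥ ∧ M.index ≤ f m R.index :=
  main_gen p

end Pool.Agent.Results.MP_98dfd6_al.SolvableRadical
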